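import Pool.Agent.H332_C5.Final

set_option autoImplicit false

namespace Pool.Agent.Results.MP_969d96_co.NearExactC5

/-- For every `n` there is a family of Hamiltonian paths on `n` vertices, any two of which
together contain a 5-cycle, of size at least `(1 - 1700 (239/240)^n) b(n)`, where `b(n)` is the
number of balanced bipartitions. -/
theorem result : ∀ n : ℕ, ∃ F : Finset (SimpleGraph (Fin n)),
    (∀ P ∈ F, Nonempty (SimpleGraph.pathGraph n ≃g P)) ∧
    (F : Set (SimpleGraph (Fin n))).Pairwise
      (fun P Q => ∃ v : Fin n, ∃ w : (P ⊔ Q).Walk v v, w.IsCycle ∧ w.length = 5) ∧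
    (1 - 1700 * (239 / 240 : ℝ) ^ n) *
      ((if Even n then n.choose (n / 2) / 2 else n.choose (n / 2) : ℕ) : ℝ) ≤ (F.card : ℝ) :=
  Pool.Agent.H332C5.near_exact

end Pool.Agent.Results.MP_969d96_co.NearExactC5
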